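import Pool.Agent.H176.DT.Stm5

/-! Project DT, part four: descent of regularity. -/

set_option autoImplicit false
set_option linter.all false

universe u

namespace Pool.Agent.Y427.DT5

open IsLocalRing Pool.Agent.W418.LU2 Pool.Agent.H176.DT

section core

variable {P P1 : Type u} [CommRing P] [CommRing P1] [IsLocalRing P] [IsRegularLocalRing P1]
  (inc : P →+* P1) (h1 : ∀ (I : Ideal P) (z : P), inc z ∈ I.map inc → z ∈ I)
  (h2 : maximalIdeal P1 = (maximalIdeal P).map inc)
  (h3 : ∀ p q : Ideal P1, p.IsPrime → q.IsPrime → p < q → p.comap inc < q.comap inc)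

include h1 in
theorem map_le (I J : Ideal P) (h : I.map inc ≤ J.map inc) : I ≤ J := fun z hz =>
  h1 J z (h (Ideal.mem_map_of_mem inc hz))

include h1 in
theorem noeth : IsNoetherianRing P := by
  have hm : StrictMono (fun I : Ideal P => I.map inc) := by
    intro I J hIJ
    refine lt_of_le_of_ne (Ideal.map_mono hIJ.le) ?_
    intro he
    exact absurd (map_le inc h1 J I he.ge) (not_le_of_gt hIJ)
  have hw : WellFoundedGT (Ideal P1) := isNoetherian_iff'.1 inferInstance
  have hw' : WellFoundedGT (Ideal P) := hm.wellFoundedGT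
  exact isNoetherian_iff'.2 hw'

include h3 in
theorem kdim : ringKrullDim P1 ≤ ringKrullDim P := by
  refine Order.krullDim_le_of_strictMono (PrimeSpectrum.comap inc) ?_
  intro p q hpq
  exact h3 p.asIdeal q.asIdeal p.2 q.2 hpq

include h1 h2 in
theorem sfr : (maximalIdeal P).spanFinrank ≤ (maximalIdeal P1).spanFinrank := by
  classical
  have hmem : ∀ y : maximalIdeal P, inc y.1 ∈ maximalIdeal P1 := by
    intro y
    rw [h2]
    exact Ideal.mem_map_of_mem inc y.2
  let t : maximalIdeal P → maximalIdeal P1 := fun y => ⟨inc y.1, hmem y⟩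
  -- the images of the maximal ideal
  have hspan : ∀ S : Set (maximalIdeal P), Submodule.span P1 (t '' S) = ⊤ ↔
      (Ideal.span (Subtype.val '' S)).map inc = maximalIdeal P1 := by
    intro S
    rw [Ideal.map_span]
    have e1 : Submodule.map (Submodule.subtype (maximalIdeal P1)) (Submodule.span P1 (t '' S)) =
        Ideal.span (inc '' (Subtype.val '' S)) := by
      rw [Submodule.map_span]
      congr 1
      ext z
      constructor
      · rintro ⟨_, ⟨y, hy, rfl⟩, rfl⟩
        exact ⟨y.1, ⟨y, hy, rfl⟩, rfl⟩
      · rintro ⟨_, ⟨y, hy, rfl⟩, rfl⟩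
        exact ⟨t y, ⟨y, hy, rfl⟩, rfl⟩
    rw [← e1, ← (Submodule.map_injective_of_injective (Submodule.injective_subtype _)).eq_iff,
      Submodule.map_top, Submodule.range_subtype]
  have htop : Submodule.span P1 (t '' Set.univ) = ⊤ := by
    rw [hspan]
    rw [h2]
    congr 1
    rw [Set.image_univ, Subtype.range_coe_subtype]
    have e0 : {x : P | x ∈ maximalIdeal P} = (maximalIdeal P : Set P) := rfl
    rw [e0]
    exact Ideal.span_eq (maximalIdeal P)
  have htop2 := CotangentSpace.span_image_eq_top_iff.2 htop
  obtain ⟨κ, a, ha, hs, hl⟩ := exists_linearIndependent' (ResidueField P1)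
    (fun y : maximalIdeal P => ((maximalIdeal P1).toCotangent (t y) : CotangentSpace P1))
  have hs2 : Submodule.span (ResidueField P1)
      ((maximalIdeal P1).toCotangent '' (t '' (Set.range a))) = ⊤ := by
    rw [← htop2]
    have e2 : ((maximalIdeal P1).toCotangent '' (t '' (Set.range a)) : Set (CotangentSpace P1)) =
        Set.range ((fun y : maximalIdeal P => ((maximalIdeal P1).toCotangent (t y) : CotangentSpace P1)) ∘ a) := by
      rw [← Set.range_comp, ← Set.range_comp]
      rfl
    have e3 : ((maximalIdeal P1).toCotangent '' (t '' Set.univ) : Set (CotangentSpace P1)) =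
        Set.range (fun y : maximalIdeal P => ((maximalIdeal P1).toCotangent (t y) : CotangentSpace P1)) := by
      rw [Set.image_univ, ← Set.range_comp]
      rfl
    rw [e2, e3, hs]
  have hs3 := (hspan _).1 (CotangentSpace.span_image_eq_top_iff.1 hs2)
  have hs4 : Ideal.span (Subtype.val '' (Set.range a)) = maximalIdeal P := by
    refine le_antisymm ?_ (map_le inc h1 _ _ ?_)
    · rw [Ideal.span_le]
      rintro _ ⟨y, -, rfl⟩
      exact y.2
    · rw [← h2, hs3]
  have hfin : Finite κ := hl.finite
  have hfk : Fintype κ := Fintype.ofFinite κ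
  have hcard : Fintype.card κ ≤ Module.finrank (ResidueField P1) (CotangentSpace P1) :=
    hl.fintype_card_le_finrank
  rw [← spanFinrank_maximalIdeal_eq_finrank_cotangentSpace] at hcard
  refine le_trans ?_ hcard
  rw [← hs4]
  have hf : (Subtype.val '' (Set.range a) : Set P).Finite := (Set.finite_range a).image _
  refine (Submodule.spanFinrank_span_le_ncard_of_finite hf).trans ?_
  refine (Set.ncard_image_le (Set.finite_range a)).trans ?_
  rw [← Set.image_univ]
  refine (Set.ncard_image_le Set.finite_univ).trans ?_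
  rw [Set.ncard_univ, Nat.card_eq_fintype_card]

include h1 h2 h3 in
theorem reg_core : IsRegularLocalRing P := by
  have := noeth inc h1
  refine IsRegularLocalRing.of_spanFinrank_maximalIdeal_le P ?_
  refine le_trans ?_ (kdim inc h3)
  rw [← IsRegularLocalRing.spanFinrank_maximalIdeal (R := P1)]
  exact_mod_cast sfr inc h1 h2

end core

theorem reg : S5_reg.{u} := by
  intro P P1 _ _ _ _ inc h1 h2 h3
  refine ⟨reg_core inc h1 h2 h3, ?_⟩
  intro ι _ y hy c hc hs i
  have hu : ∀ z : P, inc z ∈ maximalIdeal P1 → z ∈ maximalIdeal P := by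
    intro z hz
    rw [mem_maximalIdeal, mem_nonunits_iff] at hz ⊢
    exact fun h => hz (h.map inc)
  have hm : ∀ z : P, z ∈ maximalIdeal P → inc z ∈ maximalIdeal P1 := by
    intro z hz
    rw [h2]
    exact Ideal.mem_map_of_mem inc hz
  refine hu _ (hy (fun i => inc (c i)) ?_ ?_ i)
  · intro j hj
    rw [hc j fun h => hj (hm _ h), map_zero]
  · have e1 : ∑ i, inc (c i) * inc (y i) = inc (∑ i, c i * y i) := by
      rw [map_sum]
      exact Finset.sum_congr rfl fun j _ => (map_mul inc _ _).symm
    rw [e1, h2, ← Ideal.map_pow]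
    exact Ideal.mem_map_of_mem inc hs

end Pool.Agent.Y427.DT5
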